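import Mathlib

namespace Pool.Agent.Results.MP_856411_pr.NotTrapped

open MeasureTheory Set

variable {V : Type} [DecidableEq V]

def cross (x : ℕ → V) (n : ℕ) (a b : V) : ℤ :=
  ∑ k ∈ Finset.range n, ((if x k = a ∧ x (k + 1) = b then 1 else 0) -
    if x k = b ∧ x (k + 1) = a then 1 else 0)

noncomputable def wt (γ : ℝ) (c : ℤ) : ℝ :=
  if 0 < c then (c : ℝ) ^ γ else if c = 0 then 1 else (-c : ℝ) ^ (-γ)

noncomputable def prob (G : SimpleGraph V) [G.LocallyFinite] (γ : ℝ) (x : ℕ → V) (n : ℕ) : ℝ :=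
  if x (n + 1) ∈ G.neighborFinset (x n) then wt γ (cross x n (x n) (x (n + 1))) /
    ∑ y ∈ G.neighborFinset (x n), wt γ (cross x n (x n) y) else 0

def Trapped (G : SimpleGraph V) (x : ℕ → V) : Prop :=
  ∃ m : ℕ, 3 ≤ m ∧ ∃ u : ZMod m → V, Function.Injective u ∧ (∀ i, G.Adj (u i) (u (i + 1))) ∧
    ∃ (N : ℕ) (i : ZMod m), ∀ j : ℕ, x (N + j) = u (i + j)

lemma cross_le (x : ℕ → V) (n : ℕ) (a b : V) : |cross x n a b| ≤ n := by
  induction n with
  | zero => simp [cross]
  | succ n ih =>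
    unfold cross at *
    rw [Finset.sum_range_succ, abs_le] at *
    push_cast
    split_ifs <;> omega

lemma wt_bd {γ : ℝ} (h0 : 0 < γ) {c : ℤ} {n : ℕ} (hc : |c| ≤ n) :
    ((n + 1 : ℝ) ^ γ)⁻¹ ≤ wt γ c ∧ wt γ c ≤ (n + 1 : ℝ) ^ γ := by
  have hn : (1 : ℝ) ≤ n + 1 := by linarith [Nat.cast_nonneg (α := ℝ) n]
  have h1 : 1 ≤ (n + 1 : ℝ) ^ γ := Real.one_le_rpow hn h0.le
  have h2 : ((n + 1 : ℝ) ^ γ)⁻¹ ≤ 1 := inv_le_one_of_one_le₀ h1
  obtain ⟨c1, c2⟩ := abs_le.1 hc
  have c1' : -(n : ℝ) ≤ c := by exact_mod_cast c1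
  have c2' : (c : ℝ) ≤ n := by exact_mod_cast c2
  unfold wt
  split_ifs with a b
  · have : (1 : ℝ) ≤ c := by exact_mod_cast a
    exact ⟨h2.trans (Real.one_le_rpow this h0.le),
      Real.rpow_le_rpow (by linarith) (by linarith) h0.le⟩
  · exact ⟨h2, h1⟩
  · have : (c : ℝ) ≤ -1 := by exact_mod_cast (by omega : c ≤ -1)
    rw [Real.rpow_neg (by linarith)]
    exact ⟨inv_anti₀ (Real.rpow_pos_of_pos (by linarith) _)
      (Real.rpow_le_rpow (by linarith) (by linarith) h0.le),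
      (inv_le_one_of_one_le₀ (Real.one_le_rpow (by linarith) h0.le)).trans h1⟩

lemma prob_le (G : SimpleGraph V) [G.LocallyFinite] {γ : ℝ} (h0 : 0 < γ) (h1 : γ ≤ 1 / 2)
    (x : ℕ → V) (n : ℕ) (y : V) (hy : G.Adj (x n) y) (hne : x (n + 1) ≠ y) :
    prob G γ x n ≤ (n + 1) / (n + 2) := by
  unfold prob
  split_ifs with h
  swap
  · positivity
  have hn : (1 : ℝ) ≤ n + 1 := by linarith [Nat.cast_nonneg (α := ℝ) n]
  have r0 : 0 < (n + 1 : ℝ) ^ γ := by positivity
  have b := fun z => wt_bd h0 (cross_le x n (x n) z)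
  have pos : ∀ z, 0 < wt γ (cross x n (x n) z) := fun z => (inv_pos.2 r0).trans_le (b z).1
  have hs : wt γ (cross x n (x n) (x (n + 1))) + wt γ (cross x n (x n) y) ≤
      ∑ z ∈ G.neighborFinset (x n), wt γ (cross x n (x n) z) := by
    rw [← Finset.sum_pair (f := fun z => wt γ (cross x n (x n) z)) hne]
    refine Finset.sum_le_sum_of_subset_of_nonneg ?_ fun z _ _ => (pos z).le
    intro z hz
    simp only [Finset.mem_insert, Finset.mem_singleton] at hz
    rcases hz with rfl | rfl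
    · exact h
    · simpa using hy
  have r2 : (n + 1 : ℝ) ^ γ * (n + 1 : ℝ) ^ γ ≤ n + 1 := by
    rw [← Real.rpow_add (by linarith)]
    exact (Real.rpow_le_rpow_of_exponent_le hn (by linarith : γ + γ ≤ 1)).trans
      (Real.rpow_one _).le
  have r3 : (n + 1 : ℝ) ^ γ ≤ (n + 1) * ((n + 1 : ℝ) ^ γ)⁻¹ := by
    rw [← div_eq_mul_inv, le_div_iff₀ r0]; exact r2
  have r4 := mul_le_mul_of_nonneg_left (b y).1 (by linarith : (0 : ℝ) ≤ n + 1)
  rw [div_le_div_iff₀ (by linarith [pos y, pos (x (n + 1))]) (by linarith)]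
  nlinarith [(b (x (n + 1))).2]

lemma cnt [Countable V] (G : SimpleGraph V) : {x | Trapped G x}.Countable := by
  refine (countable_iUnion fun N : ℕ => countable_iUnion fun m : ℕ =>
    countable_of_injective_of_countable_image (s := {x : ℕ → V | ∀ k ≥ N, x (k + (m + 1)) = x k})
      (f := fun x (k : Fin (N + m + 1)) => x k) ?_ (to_countable _)).mono ?_
  · intro x hx y hy e
    funext k
    induction k using Nat.strong_induction_on with
    | _ k ih =>
      by_cases hk : k < N + m + 1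
      · exact congrFun e ⟨k, hk⟩
      · obtain ⟨l, rfl⟩ : ∃ l, k = l + (m + 1) := ⟨k - (m + 1), by omega⟩
        rw [hx l (by omega), hy l (by omega), ih l (by omega)]
  · rintro x ⟨m, hm, u, -, -, N, i, h⟩
    obtain ⟨m, rfl⟩ : ∃ l, m = l + 1 := ⟨m - 1, by omega⟩
    refine mem_iUnion.2 ⟨N, mem_iUnion.2 ⟨m, fun k hk => ?_⟩⟩
    obtain ⟨j, rfl⟩ := Nat.exists_eq_add_of_le hk
    rw [add_assoc, h, h, Nat.cast_add, ZMod.natCast_self, add_zero]

theorem result [Countable V] [MeasurableSpace V] (G : SimpleGraph V) [G.LocallyFinite] (γ : ℝ)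
    (h0 : 0 < γ) (h1 : γ ≤ 1 / 2) (P : Measure (ℕ → V)) [IsProbabilityMeasure P]
    (hP : ∀ (x : ℕ → V) (n : ℕ), P.real {y | ∀ k ≤ n + 1, y k = x k} =
      P.real {y | ∀ k ≤ n, y k = x k} * prob G γ x n) :
    P {x | Trapped G x} = 0 := by
  rw [← biUnion_of_singleton {x | Trapped G x}, measure_biUnion_null_iff (cnt G)]
  rintro x ⟨m, hm, u, hu, ha, N, i, h⟩
  haveI : Fact (2 < m) := ⟨hm⟩
  have key : ∀ j : ℕ, P.real {y | ∀ k ≤ N + j, y k = x k} ≤ (N + 1) / (N + j + 1) := by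
    intro j
    induction j with
    | zero => simpa [div_self (by positivity : (N + 1 : ℝ) ≠ 0)] using measureReal_le_one
    | succ j ih =>
      have a := ha (i + j - 1)
      rw [sub_add_cancel, ← h] at a
      have := prob_le G h0 h1 x (N + j) _ a.symm (by
        rw [add_assoc, h]
        intro e
        have e' := hu e
        push_cast at e'
        exact ZMod.neg_one_ne_one (n := m) (by linear_combination -e'))
      rw [← add_assoc, hP]
      push_cast at this ⊢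
      calc _ ≤ P.real {y | ∀ k ≤ N + j, y k = x k} * ((N + j + 1) / (N + j + 2)) :=
            mul_le_mul_of_nonneg_left this measureReal_nonneg
        _ ≤ (N + 1) / (N + j + 1) * ((N + j + 1) / (N + j + 2)) :=
            mul_le_mul_of_nonneg_right ih (by positivity)
        _ = _ := by field_simp; ring
  rw [← measureReal_eq_zero_iff]
  refine le_antisymm (le_of_forall_pos_le_add fun ε hε => ?_) measureReal_nonneg
  obtain ⟨j, hj⟩ := exists_nat_gt ((N + 1) / ε)
  refine (measureReal_mono (fun y hy k _ => by rw [mem_singleton_iff.1 hy])).trans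
    ((key j).trans ?_)
  rw [div_lt_iff₀ hε] at hj
  rw [zero_add, div_le_iff₀ (by positivity)]
  nlinarith [Nat.cast_nonneg (α := ℝ) N]

end Pool.Agent.Results.MP_856411_pr.NotTrapped
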